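import Pool.Agent.Strip051.LB.ChA00U_pm_112.C1

/-! # LINE tight chart ChA00U_pm_112: boxes, assembly -/

namespace Pool.Agent.Strip051.LB.ChA00U_pm_112

open Pool.Agent.Strip051.Box Pool.Agent.Strip051.Box2

theorem all (x1 x2 : ℝ) (h : Mem S b0 x1 x2) : Q x1 x2 := by
  rcases mem_split1 h with h | h
  · rcases mem_split2 h with h | h
    · rcases mem_split1 h with h | h
      · rcases mem_split2 h with h | h
        · exact chk_all c0 x1 x2 h
        · exact chk_all c1 x1 x2 h
      · exact chk_all c2 x1 x2 h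
    · exact chk_all c3 x1 x2 h
  · exact chk_all c4 x1 x2 h

end Pool.Agent.Strip051.LB.ChA00U_pm_112
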