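import Pool.Agent.Strip051.Box.C2
import Pool.Agent.Strip051.Box.S30
import Pool.Agent.Strip051.LB.Fc.F2

/-! # LINE tight chart ChA00U_pm_112 -/

namespace Pool.Agent.Strip051.LB.ChA00U_pm_112

open Pool.Agent.Strip051.Box Pool.Agent.Strip051.Box2

open Pool.Agent.Strip051.LB.Fc Pool.Agent.Strip051.LB.Fc.F2 Pool.Agent.Strip051.LB.Fn Pool.Agent.Strip051.LB.Fn.F2

/-- coordinates of a point of the box -/
def In (b : Bx) (E : Pt) (x1 x2 : ℝ) : Prop :=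
  (S : ℝ) * x1 = ((b.p1 : ℝ) - b.n1) + b.q1 * E.e1 ∧ (S : ℝ) * x2 = ((b.p2 : ℝ) - b.n2) + b.q2 * E.e2

variable {b : Bx} {E : Pt} {x1 x2 : ℝ}

def t0 (b : Bx) : TM := X1 b
noncomputable def v0 (x1 _x2 : ℝ) : ℝ := x1
theorem h0 (h : In b E x1 x2) : Enc S E (t0 b) (v0 x1 x2) := enc_X1 h.1

def t1 (b : Bx) : TM := X2 b
noncomputable def v1 (_x1 x2 : ℝ) : ℝ := x2
theorem h1 (h : In b E x1 x2) : Enc S E (t1 b) (v1 x1 x2) := enc_X2 h.2

def t2 (_b : Bx) : TM := tconst 1859775393 0 1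
noncomputable def v2 (_x1 _x2 : ℝ) : ℝ := Real.sqrt ((3 : ℕ) : ℝ)
theorem h2 (_h : In b E x1 x2) : Enc S E (t2 b) (v2 x1 x2) := enc_sqrtn E (by decide) (by decide)

def t3 (b : Bx) : TM := tscale 1 2 (t2 b)
noncomputable def v3 (x1 x2 : ℝ) : ℝ := ((1 : ℕ) : ℝ) / ((2 : ℕ) : ℝ) * v2 x1 x2
theorem h3 (h : In b E x1 x2) : Enc S E (t3 b) (v3 x1 x2) := enc_scale 1 (by norm_num) (h2 h)

def t4 (b : Bx) : TM := tsq S (t0 b)
noncomputable def v4 (x1 x2 : ℝ) : ℝ := (v0 x1 x2) ^ 2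
theorem h4 (h : In b E x1 x2) : Enc S E (t4 b) (v4 x1 x2) := enc_sq hS (h0 h)

def t5 (_b : Bx) : TM := tconst (Nat.mul 1 S) 0 0
noncomputable def v5 (_x1 _x2 : ℝ) : ℝ := ((1 : ℕ) : ℝ)
theorem h5 (_h : In b E x1 x2) : Enc S E (t5 b) (v5 x1 x2) := enc_nc E 1

def t6 (b : Bx) : TM := tsub (t5 b) (t4 b)
noncomputable def v6 (x1 x2 : ℝ) : ℝ := v5 x1 x2 - v4 x1 x2
theorem h6 (h : In b E x1 x2) : Enc S E (t6 b) (v6 x1 x2) := enc_sub (h5 h) (h4 h)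

def t7 (b : Bx) : TM := tsqrt S (t6 b)
noncomputable def v7 (x1 x2 : ℝ) : ℝ := Real.sqrt (v6 x1 x2)
theorem h7 (h : In b E x1 x2) : Enc S E (t7 b) (v7 x1 x2) := enc_sqrt hS (h6 h)

def t9 (_b : Bx) : TM := tconst (Nat.div (Nat.mul 1 S) 2) 0 1
noncomputable def v9 (_x1 _x2 : ℝ) : ℝ := ((1 : ℕ) : ℝ) / ((2 : ℕ) : ℝ)
theorem h9 (_h : In b E x1 x2) : Enc S E (t9 b) (v9 x1 x2) := enc_rat E 1 (by norm_num)

def t11 (b : Bx) : TM := tscale 1 2 (t7 b)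
noncomputable def v11 (x1 x2 : ℝ) : ℝ := ((1 : ℕ) : ℝ) / ((2 : ℕ) : ℝ) * v7 x1 x2
theorem h11 (h : In b E x1 x2) : Enc S E (t11 b) (v11 x1 x2) := enc_scale 1 (by norm_num) (h7 h)

def t13 (b : Bx) : TM := tmul S (t0 b) (t3 b)
noncomputable def v13 (x1 x2 : ℝ) : ℝ := v0 x1 x2 * v3 x1 x2
theorem h13 (h : In b E x1 x2) : Enc S E (t13 b) (v13 x1 x2) := enc_mul hS (h0 h) (h3 h)

def t15 (b : Bx) : TM := tscale 1 2 (t0 b)
noncomputable def v15 (x1 x2 : ℝ) : ℝ := ((1 : ℕ) : ℝ) / ((2 : ℕ) : ℝ) * v0 x1 x2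
theorem h15 (h : In b E x1 x2) : Enc S E (t15 b) (v15 x1 x2) := enc_scale 1 (by norm_num) (h0 h)

def t17 (b : Bx) : TM := tmul S (t7 b) (t3 b)
noncomputable def v17 (x1 x2 : ℝ) : ℝ := v7 x1 x2 * v3 x1 x2
theorem h17 (h : In b E x1 x2) : Enc S E (t17 b) (v17 x1 x2) := enc_mul hS (h7 h) (h3 h)

def t18 (b : Bx) : TM := tsub (t17 b) (t15 b)
noncomputable def v18 (x1 x2 : ℝ) : ℝ := v17 x1 x2 - v15 x1 x2
theorem h18 (h : In b E x1 x2) : Enc S E (t18 b) (v18 x1 x2) := enc_sub (h17 h) (h15 h)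

def t21 (b : Bx) : TM := tsub (t1 b) (t18 b)
noncomputable def v21 (x1 x2 : ℝ) : ℝ := v1 x1 x2 - v18 x1 x2
theorem h21 (h : In b E x1 x2) : Enc S E (t21 b) (v21 x1 x2) := enc_sub (h1 h) (h18 h)

def t22 (b : Bx) : TM := tsq S (t1 b)
noncomputable def v22 (x1 x2 : ℝ) : ℝ := (v1 x1 x2) ^ 2
theorem h22 (h : In b E x1 x2) : Enc S E (t22 b) (v22 x1 x2) := enc_sq hS (h1 h)

def t23 (b : Bx) : TM := tsub (t5 b) (t22 b)
noncomputable def v23 (x1 x2 : ℝ) : ℝ := v5 x1 x2 - v22 x1 x2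
theorem h23 (h : In b E x1 x2) : Enc S E (t23 b) (v23 x1 x2) := enc_sub (h5 h) (h22 h)

def t24 (b : Bx) : TM := tsqrt S (t23 b)
noncomputable def v24 (x1 x2 : ℝ) : ℝ := Real.sqrt (v23 x1 x2)
theorem h24 (h : In b E x1 x2) : Enc S E (t24 b) (v24 x1 x2) := enc_sqrt hS (h23 h)

def t25 (b : Bx) : TM := tadd (t13 b) (t11 b)
noncomputable def v25 (x1 x2 : ℝ) : ℝ := v13 x1 x2 + v11 x1 x2
theorem h25 (h : In b E x1 x2) : Enc S E (t25 b) (v25 x1 x2) := enc_add (h13 h) (h11 h)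

def t27 (b : Bx) : TM := tsub (t7 b) (t24 b)
noncomputable def v27 (x1 x2 : ℝ) : ℝ := v7 x1 x2 - v24 x1 x2
theorem h27 (h : In b E x1 x2) : Enc S E (t27 b) (v27 x1 x2) := enc_sub (h7 h) (h24 h)

def t28 (b : Bx) : TM := tadd (t0 b) (t1 b)
noncomputable def v28 (x1 x2 : ℝ) : ℝ := v0 x1 x2 + v1 x1 x2
theorem h28 (h : In b E x1 x2) : Enc S E (t28 b) (v28 x1 x2) := enc_add (h0 h) (h1 h)

def t29 (b : Bx) : TM := tnat 2 (t7 b)
noncomputable def v29 (x1 x2 : ℝ) : ℝ := ((2 : ℕ) : ℝ) * v7 x1 x2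
theorem h29 (h : In b E x1 x2) : Enc S E (t29 b) (v29 x1 x2) := enc_nat 2 (h7 h)

def t30 (b : Bx) : TM := tadd (t5 b) (t29 b)
noncomputable def v30 (x1 x2 : ℝ) : ℝ := v5 x1 x2 + v29 x1 x2
theorem h30 (h : In b E x1 x2) : Enc S E (t30 b) (v30 x1 x2) := enc_add (h5 h) (h29 h)

def t31 (b : Bx) : TM := tmul S (t2 b) (t0 b)
noncomputable def v31 (x1 x2 : ℝ) : ℝ := v2 x1 x2 * v0 x1 x2
theorem h31 (h : In b E x1 x2) : Enc S E (t31 b) (v31 x1 x2) := enc_mul hS (h2 h) (h0 h)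

def t32 (b : Bx) : TM := tsub (t31 b) (t7 b)
noncomputable def v32 (x1 x2 : ℝ) : ℝ := v31 x1 x2 - v7 x1 x2
theorem h32 (h : In b E x1 x2) : Enc S E (t32 b) (v32 x1 x2) := enc_sub (h31 h) (h7 h)

def t33 (b : Bx) : TM := tmul S (t30 b) (t32 b)
noncomputable def v33 (x1 x2 : ℝ) : ℝ := v30 x1 x2 * v32 x1 x2
theorem h33 (h : In b E x1 x2) : Enc S E (t33 b) (v33 x1 x2) := enc_mul hS (h30 h) (h32 h)

def t34 (b : Bx) : TM := tadd (t5 b) (t31 b)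
noncomputable def v34 (x1 x2 : ℝ) : ℝ := v5 x1 x2 + v31 x1 x2
theorem h34 (h : In b E x1 x2) : Enc S E (t34 b) (v34 x1 x2) := enc_add (h5 h) (h31 h)

def t35 (b : Bx) : TM := tsub (t34 b) (t7 b)
noncomputable def v35 (x1 x2 : ℝ) : ℝ := v34 x1 x2 - v7 x1 x2
theorem h35 (h : In b E x1 x2) : Enc S E (t35 b) (v35 x1 x2) := enc_sub (h34 h) (h7 h)

def t36 (b : Bx) : TM := tnat 2 (t35 b)
noncomputable def v36 (x1 x2 : ℝ) : ℝ := ((2 : ℕ) : ℝ) * v35 x1 x2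
theorem h36 (h : In b E x1 x2) : Enc S E (t36 b) (v36 x1 x2) := enc_nat 2 (h35 h)

def t37 (b : Bx) : TM := tinv S (t36 b)
noncomputable def v37 (x1 x2 : ℝ) : ℝ := (v36 x1 x2)⁻¹
theorem h37 (h : In b E x1 x2) : Enc S E (t37 b) (v37 x1 x2) := enc_inv hS (h36 h)

def t38 (b : Bx) : TM := tmul S (t33 b) (t37 b)
noncomputable def v38 (x1 x2 : ℝ) : ℝ := v33 x1 x2 * v37 x1 x2
theorem h38 (h : In b E x1 x2) : Enc S E (t38 b) (v38 x1 x2) := enc_mul hS (h33 h) (h37 h)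

def t39 (b : Bx) : TM := tnat 2 (t24 b)
noncomputable def v39 (x1 x2 : ℝ) : ℝ := ((2 : ℕ) : ℝ) * v24 x1 x2
theorem h39 (h : In b E x1 x2) : Enc S E (t39 b) (v39 x1 x2) := enc_nat 2 (h24 h)

def t40 (b : Bx) : TM := tadd (t5 b) (t39 b)
noncomputable def v40 (x1 x2 : ℝ) : ℝ := v5 x1 x2 + v39 x1 x2
theorem h40 (h : In b E x1 x2) : Enc S E (t40 b) (v40 x1 x2) := enc_add (h5 h) (h39 h)

def t41 (b : Bx) : TM := tmul S (t2 b) (t1 b)
noncomputable def v41 (x1 x2 : ℝ) : ℝ := v2 x1 x2 * v1 x1 x2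
theorem h41 (h : In b E x1 x2) : Enc S E (t41 b) (v41 x1 x2) := enc_mul hS (h2 h) (h1 h)

def t42 (b : Bx) : TM := tsub (t41 b) (t24 b)
noncomputable def v42 (x1 x2 : ℝ) : ℝ := v41 x1 x2 - v24 x1 x2
theorem h42 (h : In b E x1 x2) : Enc S E (t42 b) (v42 x1 x2) := enc_sub (h41 h) (h24 h)

def t43 (b : Bx) : TM := tmul S (t40 b) (t42 b)
noncomputable def v43 (x1 x2 : ℝ) : ℝ := v40 x1 x2 * v42 x1 x2
theorem h43 (h : In b E x1 x2) : Enc S E (t43 b) (v43 x1 x2) := enc_mul hS (h40 h) (h42 h)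

def t44 (b : Bx) : TM := tadd (t5 b) (t41 b)
noncomputable def v44 (x1 x2 : ℝ) : ℝ := v5 x1 x2 + v41 x1 x2
theorem h44 (h : In b E x1 x2) : Enc S E (t44 b) (v44 x1 x2) := enc_add (h5 h) (h41 h)

def t45 (b : Bx) : TM := tsub (t44 b) (t24 b)
noncomputable def v45 (x1 x2 : ℝ) : ℝ := v44 x1 x2 - v24 x1 x2
theorem h45 (h : In b E x1 x2) : Enc S E (t45 b) (v45 x1 x2) := enc_sub (h44 h) (h24 h)

def t46 (b : Bx) : TM := tnat 2 (t45 b)
noncomputable def v46 (x1 x2 : ℝ) : ℝ := ((2 : ℕ) : ℝ) * v45 x1 x2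
theorem h46 (h : In b E x1 x2) : Enc S E (t46 b) (v46 x1 x2) := enc_nat 2 (h45 h)

def t47 (b : Bx) : TM := tinv S (t46 b)
noncomputable def v47 (x1 x2 : ℝ) : ℝ := (v46 x1 x2)⁻¹
theorem h47 (h : In b E x1 x2) : Enc S E (t47 b) (v47 x1 x2) := enc_inv hS (h46 h)

def t48 (b : Bx) : TM := tmul S (t43 b) (t47 b)
noncomputable def v48 (x1 x2 : ℝ) : ℝ := v43 x1 x2 * v47 x1 x2
theorem h48 (h : In b E x1 x2) : Enc S E (t48 b) (v48 x1 x2) := enc_mul hS (h43 h) (h47 h)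

def t50 (b : Bx) : TM := tsq S (t27 b)
noncomputable def v50 (x1 x2 : ℝ) : ℝ := (v27 x1 x2) ^ 2
theorem h50 (h : In b E x1 x2) : Enc S E (t50 b) (v50 x1 x2) := enc_sq hS (h27 h)

def t51 (b : Bx) : TM := tsq S (t28 b)
noncomputable def v51 (x1 x2 : ℝ) : ℝ := (v28 x1 x2) ^ 2
theorem h51 (h : In b E x1 x2) : Enc S E (t51 b) (v51 x1 x2) := enc_sq hS (h28 h)

def t52 (b : Bx) : TM := tadd (t50 b) (t51 b)
noncomputable def v52 (x1 x2 : ℝ) : ℝ := v50 x1 x2 + v51 x1 x2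
theorem h52 (h : In b E x1 x2) : Enc S E (t52 b) (v52 x1 x2) := enc_add (h50 h) (h51 h)

def t53 (b : Bx) : TM := tsub (t52 b) (t5 b)
noncomputable def v53 (x1 x2 : ℝ) : ℝ := v52 x1 x2 - v5 x1 x2
theorem h53 (h : In b E x1 x2) : Enc S E (t53 b) (v53 x1 x2) := enc_sub (h52 h) (h5 h)

def t56 (b : Bx) : TM := tadd (t1 b) (t18 b)
noncomputable def v56 (x1 x2 : ℝ) : ℝ := v1 x1 x2 + v18 x1 x2
theorem h56 (h : In b E x1 x2) : Enc S E (t56 b) (v56 x1 x2) := enc_add (h1 h) (h18 h)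

def t59 (b : Bx) : TM := tadd (t24 b) (t25 b)
noncomputable def v59 (x1 x2 : ℝ) : ℝ := v24 x1 x2 + v25 x1 x2
theorem h59 (h : In b E x1 x2) : Enc S E (t59 b) (v59 x1 x2) := enc_add (h24 h) (h25 h)

def t60 (b : Bx) : TM := tinv S (t59 b)
noncomputable def v60 (x1 x2 : ℝ) : ℝ := (v59 x1 x2)⁻¹
theorem h60 (h : In b E x1 x2) : Enc S E (t60 b) (v60 x1 x2) := enc_inv hS (h59 h)

def t61 (b : Bx) : TM := tmul S (t56 b) (t60 b)
noncomputable def v61 (x1 x2 : ℝ) : ℝ := v56 x1 x2 * v60 x1 x2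
theorem h61 (h : In b E x1 x2) : Enc S E (t61 b) (v61 x1 x2) := enc_mul hS (h56 h) (h60 h)

def t63 (b : Bx) : TM := tsub (t7 b) (t25 b)
noncomputable def v63 (x1 x2 : ℝ) : ℝ := v7 x1 x2 - v25 x1 x2
theorem h63 (h : In b E x1 x2) : Enc S E (t63 b) (v63 x1 x2) := enc_sub (h7 h) (h25 h)

def t65 (b : Bx) : TM := tadd (t27 b) (t63 b)
noncomputable def v65 (x1 x2 : ℝ) : ℝ := v27 x1 x2 + v63 x1 x2
theorem h65 (h : In b E x1 x2) : Enc S E (t65 b) (v65 x1 x2) := enc_add (h27 h) (h63 h)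

def t66 (b : Bx) : TM := tmul S (t61 b) (t65 b)
noncomputable def v66 (x1 x2 : ℝ) : ℝ := v61 x1 x2 * v65 x1 x2
theorem h66 (h : In b E x1 x2) : Enc S E (t66 b) (v66 x1 x2) := enc_mul hS (h61 h) (h65 h)

def t67 (b : Bx) : TM := tadd (t0 b) (t18 b)
noncomputable def v67 (x1 x2 : ℝ) : ℝ := v0 x1 x2 + v18 x1 x2
theorem h67 (h : In b E x1 x2) : Enc S E (t67 b) (v67 x1 x2) := enc_add (h0 h) (h18 h)

def t69 (b : Bx) : TM := tadd (t28 b) (t67 b)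
noncomputable def v69 (x1 x2 : ℝ) : ℝ := v28 x1 x2 + v67 x1 x2
theorem h69 (h : In b E x1 x2) : Enc S E (t69 b) (v69 x1 x2) := enc_add (h28 h) (h67 h)

def t71 (b : Bx) : TM := tadd (t66 b) (t69 b)
noncomputable def v71 (x1 x2 : ℝ) : ℝ := v66 x1 x2 + v69 x1 x2
theorem h71 (h : In b E x1 x2) : Enc S E (t71 b) (v71 x1 x2) := enc_add (h66 h) (h69 h)

def t73 (b : Bx) : TM := kx2_t (t27 b) (t28 b)
noncomputable def v73 (x1 x2 : ℝ) : ℝ := kx2_v (v27 x1 x2) (v28 x1 x2)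
theorem h73 (h : In b E x1 x2) : Enc S E (t73 b) (v73 x1 x2) := kx2_enc (h27 h) (h28 h)

def t74 (b : Bx) : TM := f2p_t (t28 b)
noncomputable def v74 (x1 x2 : ℝ) : ℝ := f2p_v (v28 x1 x2)
theorem h74 (h : In b E x1 x2) : Enc S E (t74 b) (v74 x1 x2) := f2p_enc (h28 h)

def t75 (b : Bx) : TM := tsub (t74 b) (t27 b)
noncomputable def v75 (x1 x2 : ℝ) : ℝ := v74 x1 x2 - v27 x1 x2
theorem h75 (h : In b E x1 x2) : Enc S E (t75 b) (v75 x1 x2) := enc_sub (h74 h) (h27 h)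

def t76 (b : Bx) : TM := tadd (t74 b) (t27 b)
noncomputable def v76 (x1 x2 : ℝ) : ℝ := v74 x1 x2 + v27 x1 x2
theorem h76 (h : In b E x1 x2) : Enc S E (t76 b) (v76 x1 x2) := enc_add (h74 h) (h27 h)

def t77 (b : Bx) : TM := tmul S (t53 b) (t73 b)
noncomputable def v77 (x1 x2 : ℝ) : ℝ := v53 x1 x2 * v73 x1 x2
theorem h77 (h : In b E x1 x2) : Enc S E (t77 b) (v77 x1 x2) := enc_mul hS (h53 h) (h73 h)

def t78 (b : Bx) : TM := tadd (t27 b) (t77 b)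
noncomputable def v78 (x1 x2 : ℝ) : ℝ := v27 x1 x2 + v77 x1 x2
theorem h78 (h : In b E x1 x2) : Enc S E (t78 b) (v78 x1 x2) := enc_add (h27 h) (h77 h)

def t79 (b : Bx) : TM := tmul S (t71 b) (t73 b)
noncomputable def v79 (x1 x2 : ℝ) : ℝ := v71 x1 x2 * v73 x1 x2
theorem h79 (h : In b E x1 x2) : Enc S E (t79 b) (v79 x1 x2) := enc_mul hS (h71 h) (h73 h)

def t80 (b : Bx) : TM := tadd (t61 b) (t79 b)
noncomputable def v80 (x1 x2 : ℝ) : ℝ := v61 x1 x2 + v79 x1 x2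
theorem h80 (h : In b E x1 x2) : Enc S E (t80 b) (v80 x1 x2) := enc_add (h61 h) (h79 h)

def t81 (b : Bx) : TM := tmul S (t7 b) (t1 b)
noncomputable def v81 (x1 x2 : ℝ) : ℝ := v7 x1 x2 * v1 x1 x2
theorem h81 (h : In b E x1 x2) : Enc S E (t81 b) (v81 x1 x2) := enc_mul hS (h7 h) (h1 h)

def t82 (b : Bx) : TM := tmul S (t24 b) (t0 b)
noncomputable def v82 (x1 x2 : ℝ) : ℝ := v24 x1 x2 * v0 x1 x2
theorem h82 (h : In b E x1 x2) : Enc S E (t82 b) (v82 x1 x2) := enc_mul hS (h24 h) (h0 h)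

def t84 (b : Bx) : TM := tadd (t81 b) (t82 b)
noncomputable def v84 (x1 x2 : ℝ) : ℝ := v81 x1 x2 + v82 x1 x2
theorem h84 (h : In b E x1 x2) : Enc S E (t84 b) (v84 x1 x2) := enc_add (h81 h) (h82 h)

def t85 (b : Bx) : TM := tinv S (t2 b)
noncomputable def v85 (x1 x2 : ℝ) : ℝ := (v2 x1 x2)⁻¹
theorem h85 (h : In b E x1 x2) : Enc S E (t85 b) (v85 x1 x2) := enc_inv hS (h2 h)

def t86 (b : Bx) : TM := tmul S (t84 b) (t85 b)
noncomputable def v86 (x1 x2 : ℝ) : ℝ := v84 x1 x2 * v85 x1 x2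
theorem h86 (h : In b E x1 x2) : Enc S E (t86 b) (v86 x1 x2) := enc_mul hS (h84 h) (h85 h)

def t87 (b : Bx) : TM := tsub (t86 b) (t9 b)
noncomputable def v87 (x1 x2 : ℝ) : ℝ := v86 x1 x2 - v9 x1 x2
theorem h87 (h : In b E x1 x2) : Enc S E (t87 b) (v87 x1 x2) := enc_sub (h86 h) (h9 h)

def t90 (b : Bx) : TM := tmul S (t61 b) (t0 b)
noncomputable def v90 (x1 x2 : ℝ) : ℝ := v61 x1 x2 * v0 x1 x2
theorem h90 (h : In b E x1 x2) : Enc S E (t90 b) (v90 x1 x2) := enc_mul hS (h61 h) (h0 h)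

def t93 (b : Bx) : TM := tsub (t7 b) (t90 b)
noncomputable def v93 (x1 x2 : ℝ) : ℝ := v7 x1 x2 - v90 x1 x2
theorem h93 (h : In b E x1 x2) : Enc S E (t93 b) (v93 x1 x2) := enc_sub (h7 h) (h90 h)

def t95 (b : Bx) : TM := tmul S (t93 b) (t85 b)
noncomputable def v95 (x1 x2 : ℝ) : ℝ := v93 x1 x2 * v85 x1 x2
theorem h95 (h : In b E x1 x2) : Enc S E (t95 b) (v95 x1 x2) := enc_mul hS (h93 h) (h85 h)

def t97 (b : Bx) : TM := tsub (t0 b) (t3 b)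
noncomputable def v97 (x1 x2 : ℝ) : ℝ := v0 x1 x2 - v3 x1 x2
theorem h97 (h : In b E x1 x2) : Enc S E (t97 b) (v97 x1 x2) := enc_sub (h0 h) (h3 h)

def t98 (b : Bx) : TM := tsub (t1 b) (t3 b)
noncomputable def v98 (x1 x2 : ℝ) : ℝ := v1 x1 x2 - v3 x1 x2
theorem h98 (h : In b E x1 x2) : Enc S E (t98 b) (v98 x1 x2) := enc_sub (h1 h) (h3 h)

def t99 (b : Bx) : TM := tsub (t28 b) (t3 b)
noncomputable def v99 (x1 x2 : ℝ) : ℝ := v28 x1 x2 - v3 x1 x2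
theorem h99 (h : In b E x1 x2) : Enc S E (t99 b) (v99 x1 x2) := enc_sub (h28 h) (h3 h)

def t111 (b : Bx) : TM := tnat 2 (t25 b)
noncomputable def v111 (x1 x2 : ℝ) : ℝ := ((2 : ℕ) : ℝ) * v25 x1 x2
theorem h111 (h : In b E x1 x2) : Enc S E (t111 b) (v111 x1 x2) := enc_nat 2 (h25 h)

def t112 (b : Bx) : TM := tnat 2 (t61 b)
noncomputable def v112 (x1 x2 : ℝ) : ℝ := ((2 : ℕ) : ℝ) * v61 x1 x2
theorem h112 (h : In b E x1 x2) : Enc S E (t112 b) (v112 x1 x2) := enc_nat 2 (h61 h)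

def t114 (b : Bx) : TM := tadd (t5 b) (t111 b)
noncomputable def v114 (x1 x2 : ℝ) : ℝ := v5 x1 x2 + v111 x1 x2
theorem h114 (h : In b E x1 x2) : Enc S E (t114 b) (v114 x1 x2) := enc_add (h5 h) (h111 h)

def t115 (b : Bx) : TM := tmul S (t2 b) (t18 b)
noncomputable def v115 (x1 x2 : ℝ) : ℝ := v2 x1 x2 * v18 x1 x2
theorem h115 (h : In b E x1 x2) : Enc S E (t115 b) (v115 x1 x2) := enc_mul hS (h2 h) (h18 h)

def t116 (b : Bx) : TM := tsub (t115 b) (t25 b)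
noncomputable def v116 (x1 x2 : ℝ) : ℝ := v115 x1 x2 - v25 x1 x2
theorem h116 (h : In b E x1 x2) : Enc S E (t116 b) (v116 x1 x2) := enc_sub (h115 h) (h25 h)

def t117 (b : Bx) : TM := tadd (t2 b) (t61 b)
noncomputable def v117 (x1 x2 : ℝ) : ℝ := v2 x1 x2 + v61 x1 x2
theorem h117 (h : In b E x1 x2) : Enc S E (t117 b) (v117 x1 x2) := enc_add (h2 h) (h61 h)

def t118 (b : Bx) : TM := tmul S (t114 b) (t116 b)
noncomputable def v118 (x1 x2 : ℝ) : ℝ := v114 x1 x2 * v116 x1 x2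
theorem h118 (h : In b E x1 x2) : Enc S E (t118 b) (v118 x1 x2) := enc_mul hS (h114 h) (h116 h)

def t119 (b : Bx) : TM := tmul S (t112 b) (t42 b)
noncomputable def v119 (x1 x2 : ℝ) : ℝ := v112 x1 x2 * v42 x1 x2
theorem h119 (h : In b E x1 x2) : Enc S E (t119 b) (v119 x1 x2) := enc_mul hS (h112 h) (h42 h)

def t121 (b : Bx) : TM := tmul S (t114 b) (t117 b)
noncomputable def v121 (x1 x2 : ℝ) : ℝ := v114 x1 x2 * v117 x1 x2
theorem h121 (h : In b E x1 x2) : Enc S E (t121 b) (v121 x1 x2) := enc_mul hS (h114 h) (h117 h)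

def t122 (b : Bx) : TM := tsub (t121 b) (t119 b)
noncomputable def v122 (x1 x2 : ℝ) : ℝ := v121 x1 x2 - v119 x1 x2
theorem h122 (h : In b E x1 x2) : Enc S E (t122 b) (v122 x1 x2) := enc_sub (h121 h) (h119 h)

def t123 (b : Bx) : TM := tadd (t5 b) (t115 b)
noncomputable def v123 (x1 x2 : ℝ) : ℝ := v5 x1 x2 + v115 x1 x2
theorem h123 (h : In b E x1 x2) : Enc S E (t123 b) (v123 x1 x2) := enc_add (h5 h) (h115 h)

def t124 (b : Bx) : TM := tsub (t123 b) (t25 b)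
noncomputable def v124 (x1 x2 : ℝ) : ℝ := v123 x1 x2 - v25 x1 x2
theorem h124 (h : In b E x1 x2) : Enc S E (t124 b) (v124 x1 x2) := enc_sub (h123 h) (h25 h)

def t125 (b : Bx) : TM := tnat 2 (t124 b)
noncomputable def v125 (x1 x2 : ℝ) : ℝ := ((2 : ℕ) : ℝ) * v124 x1 x2
theorem h125 (h : In b E x1 x2) : Enc S E (t125 b) (v125 x1 x2) := enc_nat 2 (h124 h)

def t126 (b : Bx) : TM := tnat 2 (t117 b)
noncomputable def v126 (x1 x2 : ℝ) : ℝ := ((2 : ℕ) : ℝ) * v117 x1 x2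
theorem h126 (h : In b E x1 x2) : Enc S E (t126 b) (v126 x1 x2) := enc_nat 2 (h117 h)

def t127 (b : Bx) : TM := tinv S (t125 b)
noncomputable def v127 (x1 x2 : ℝ) : ℝ := (v125 x1 x2)⁻¹
theorem h127 (h : In b E x1 x2) : Enc S E (t127 b) (v127 x1 x2) := enc_inv hS (h125 h)

def t128 (b : Bx) : TM := tmul S (t47 b) (t127 b)
noncomputable def v128 (x1 x2 : ℝ) : ℝ := v47 x1 x2 * v127 x1 x2
theorem h128 (h : In b E x1 x2) : Enc S E (t128 b) (v128 x1 x2) := enc_mul hS (h47 h) (h127 h)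

def t129 (b : Bx) : TM := tmul S (t126 b) (t128 b)
noncomputable def v129 (x1 x2 : ℝ) : ℝ := v126 x1 x2 * v128 x1 x2
theorem h129 (h : In b E x1 x2) : Enc S E (t129 b) (v129 x1 x2) := enc_mul hS (h126 h) (h128 h)

def t132 (b : Bx) : TM := tmul S (t122 b) (t47 b)
noncomputable def v132 (x1 x2 : ℝ) : ℝ := v122 x1 x2 * v47 x1 x2
theorem h132 (h : In b E x1 x2) : Enc S E (t132 b) (v132 x1 x2) := enc_mul hS (h122 h) (h47 h)

def t133 (b : Bx) : TM := tmul S (t118 b) (t129 b)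
noncomputable def v133 (x1 x2 : ℝ) : ℝ := v118 x1 x2 * v129 x1 x2
theorem h133 (h : In b E x1 x2) : Enc S E (t133 b) (v133 x1 x2) := enc_mul hS (h118 h) (h129 h)

def t137 (b : Bx) : TM := tsub (t133 b) (t132 b)
noncomputable def v137 (x1 x2 : ℝ) : ℝ := v133 x1 x2 - v132 x1 x2
theorem h137 (h : In b E x1 x2) : Enc S E (t137 b) (v137 x1 x2) := enc_sub (h133 h) (h132 h)

def t138 (b : Bx) : TM := tsub (t18 b) (t3 b)
noncomputable def v138 (x1 x2 : ℝ) : ℝ := v18 x1 x2 - v3 x1 x2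
theorem h138 (h : In b E x1 x2) : Enc S E (t138 b) (v138 x1 x2) := enc_sub (h18 h) (h3 h)

def t139 (b : Bx) : TM := tmul S (t97 b) (t137 b)
noncomputable def v139 (x1 x2 : ℝ) : ℝ := v97 x1 x2 * v137 x1 x2
theorem h139 (h : In b E x1 x2) : Enc S E (t139 b) (v139 x1 x2) := enc_mul hS (h97 h) (h137 h)

def t140 (b : Bx) : TM := tsub (t139 b) (t38 b)
noncomputable def v140 (x1 x2 : ℝ) : ℝ := v139 x1 x2 - v38 x1 x2
theorem h140 (h : In b E x1 x2) : Enc S E (t140 b) (v140 x1 x2) := enc_sub (h139 h) (h38 h)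

def t141 (b : Bx) : TM := tsub (t67 b) (t3 b)
noncomputable def v141 (x1 x2 : ℝ) : ℝ := v67 x1 x2 - v3 x1 x2
theorem h141 (h : In b E x1 x2) : Enc S E (t141 b) (v141 x1 x2) := enc_sub (h67 h) (h3 h)

def t142 (b : Bx) : TM := tmul S (t141 b) (t137 b)
noncomputable def v142 (x1 x2 : ℝ) : ℝ := v141 x1 x2 * v137 x1 x2
theorem h142 (h : In b E x1 x2) : Enc S E (t142 b) (v142 x1 x2) := enc_mul hS (h141 h) (h137 h)

def t143 (b : Bx) : TM := tsub (t142 b) (t48 b)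
noncomputable def v143 (x1 x2 : ℝ) : ℝ := v142 x1 x2 - v48 x1 x2
theorem h143 (h : In b E x1 x2) : Enc S E (t143 b) (v143 x1 x2) := enc_sub (h142 h) (h48 h)

def t144 (b : Bx) : TM := tsub (t143 b) (t78 b)
noncomputable def v144 (x1 x2 : ℝ) : ℝ := v143 x1 x2 - v78 x1 x2
theorem h144 (h : In b E x1 x2) : Enc S E (t144 b) (v144 x1 x2) := enc_sub (h143 h) (h78 h)

def t145 (b : Bx) : TM := tmul S (t138 b) (t80 b)
noncomputable def v145 (x1 x2 : ℝ) : ℝ := v138 x1 x2 * v80 x1 x2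
theorem h145 (h : In b E x1 x2) : Enc S E (t145 b) (v145 x1 x2) := enc_mul hS (h138 h) (h80 h)

def t146 (b : Bx) : TM := tsub (t144 b) (t145 b)
noncomputable def v146 (x1 x2 : ℝ) : ℝ := v144 x1 x2 - v145 x1 x2
theorem h146 (h : In b E x1 x2) : Enc S E (t146 b) (v146 x1 x2) := enc_sub (h144 h) (h145 h)

def t147 (b : Bx) : TM := tmul S (t97 b) (t80 b)
noncomputable def v147 (x1 x2 : ℝ) : ℝ := v97 x1 x2 * v80 x1 x2
theorem h147 (h : In b E x1 x2) : Enc S E (t147 b) (v147 x1 x2) := enc_mul hS (h97 h) (h80 h)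

def t148 (b : Bx) : TM := tsub (t147 b) (t38 b)
noncomputable def v148 (x1 x2 : ℝ) : ℝ := v147 x1 x2 - v38 x1 x2
theorem h148 (h : In b E x1 x2) : Enc S E (t148 b) (v148 x1 x2) := enc_sub (h147 h) (h38 h)

def t149 (b : Bx) : TM := tsub (t3 b) (t1 b)
noncomputable def v149 (x1 x2 : ℝ) : ℝ := v3 x1 x2 - v1 x1 x2
theorem h149 (h : In b E x1 x2) : Enc S E (t149 b) (v149 x1 x2) := enc_sub (h3 h) (h1 h)

def t150 (b : Bx) : TM := tsub (t3 b) (t0 b)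
noncomputable def v150 (x1 x2 : ℝ) : ℝ := v3 x1 x2 - v0 x1 x2
theorem h150 (h : In b E x1 x2) : Enc S E (t150 b) (v150 x1 x2) := enc_sub (h3 h) (h0 h)

def t151 (b : Bx) : TM := qw_t (t99 b) (t149 b) (t150 b) (t95 b) (t146 b) (t140 b) (t148 b)
noncomputable def v151 (x1 x2 : ℝ) : ℝ := qw_v (v99 x1 x2) (v149 x1 x2) (v150 x1 x2) (v95 x1 x2) (v146 x1 x2) (v140 x1 x2) (v148 x1 x2)
theorem h151 (h : In b E x1 x2) : Enc S E (t151 b) (v151 x1 x2) := qw_enc (h99 h) (h149 h) (h150 h) (h95 h) (h146 h) (h140 h) (h148 h)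

def t152 (b : Bx) : TM := tscale 1 4 (t2 b)
noncomputable def v152 (x1 x2 : ℝ) : ℝ := ((1 : ℕ) : ℝ) / ((4 : ℕ) : ℝ) * v2 x1 x2
theorem h152 (h : In b E x1 x2) : Enc S E (t152 b) (v152 x1 x2) := enc_scale 1 (by norm_num) (h2 h)

def t154 (b : Bx) : TM := tsub (t152 b) (t0 b)
noncomputable def v154 (x1 x2 : ℝ) : ℝ := v152 x1 x2 - v0 x1 x2
theorem h154 (h : In b E x1 x2) : Enc S E (t154 b) (v154 x1 x2) := enc_sub (h152 h) (h0 h)

def t156 (b : Bx) : TM := tsub (t152 b) (t1 b)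
noncomputable def v156 (x1 x2 : ℝ) : ℝ := v152 x1 x2 - v1 x1 x2
theorem h156 (h : In b E x1 x2) : Enc S E (t156 b) (v156 x1 x2) := enc_sub (h152 h) (h1 h)

def t157 (b : Bx) : TM := tsub (t3 b) (t28 b)
noncomputable def v157 (x1 x2 : ℝ) : ℝ := v3 x1 x2 - v28 x1 x2
theorem h157 (h : In b E x1 x2) : Enc S E (t157 b) (v157 x1 x2) := enc_sub (h3 h) (h28 h)

def t158 (b : Bx) : TM := tscale 3 4 (t2 b)
noncomputable def v158 (x1 x2 : ℝ) : ℝ := ((3 : ℕ) : ℝ) / ((4 : ℕ) : ℝ) * v2 x1 x2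
theorem h158 (h : In b E x1 x2) : Enc S E (t158 b) (v158 x1 x2) := enc_scale 3 (by norm_num) (h2 h)

def t160 (b : Bx) : TM := tsub (t28 b) (t158 b)
noncomputable def v160 (x1 x2 : ℝ) : ℝ := v28 x1 x2 - v158 x1 x2
theorem h160 (h : In b E x1 x2) : Enc S E (t160 b) (v160 x1 x2) := enc_sub (h28 h) (h158 h)

def t161 (_b : Bx) : TM := tconst (Nat.div (Nat.mul 1 S) 16) 0 1
noncomputable def v161 (_x1 _x2 : ℝ) : ℝ := ((1 : ℕ) : ℝ) / ((16 : ℕ) : ℝ)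
theorem h161 (_h : In b E x1 x2) : Enc S E (t161 b) (v161 x1 x2) := enc_rat E 1 (by norm_num)

def t162 (b : Bx) : TM := tsub (t21 b) (t161 b)
noncomputable def v162 (x1 x2 : ℝ) : ℝ := v21 x1 x2 - v161 x1 x2
theorem h162 (h : In b E x1 x2) : Enc S E (t162 b) (v162 x1 x2) := enc_sub (h21 h) (h161 h)

def t163 (b : Bx) : TM := tsub (t18 b) (t1 b)
noncomputable def v163 (x1 x2 : ℝ) : ℝ := v18 x1 x2 - v1 x1 x2
theorem h163 (h : In b E x1 x2) : Enc S E (t163 b) (v163 x1 x2) := enc_sub (h18 h) (h1 h)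

def t164 (b : Bx) : TM := tsub (t163 b) (t161 b)
noncomputable def v164 (x1 x2 : ℝ) : ℝ := v163 x1 x2 - v161 x1 x2
theorem h164 (h : In b E x1 x2) : Enc S E (t164 b) (v164 x1 x2) := enc_sub (h163 h) (h161 h)

def t165 (b : Bx) : TM := tsub (t28 b) (t2 b)
noncomputable def v165 (x1 x2 : ℝ) : ℝ := v28 x1 x2 - v2 x1 x2
theorem h165 (h : In b E x1 x2) : Enc S E (t165 b) (v165 x1 x2) := enc_sub (h28 h) (h2 h)

def t166 (b : Bx) : TM := tsub (t5 b) (t52 b)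
noncomputable def v166 (x1 x2 : ℝ) : ℝ := v5 x1 x2 - v52 x1 x2
theorem h166 (h : In b E x1 x2) : Enc S E (t166 b) (v166 x1 x2) := enc_sub (h5 h) (h52 h)

def t167 (b : Bx) : TM := tadd (t87 b) (t9 b)
noncomputable def v167 (x1 x2 : ℝ) : ℝ := v87 x1 x2 + v9 x1 x2
theorem h167 (h : In b E x1 x2) : Enc S E (t167 b) (v167 x1 x2) := enc_add (h87 h) (h9 h)

def t168 (b : Bx) : TM := tneg (t167 b)
noncomputable def v168 (x1 x2 : ℝ) : ℝ := -(v167 x1 x2)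
theorem h168 (h : In b E x1 x2) : Enc S E (t168 b) (v168 x1 x2) := enc_neg (h167 h)

def g0 (b : Bx) : Bool := and (pos (t71 b)) (and (pos (t23 b)) (and (pos (t59 b)) (and (pos (t75 b)) (and (pos (t76 b)) (and (pos (t46 b)) (and (pos (t125 b)) (and (pos (t36 b)) (or (pos (t163 b)) (pos (t151 b))))))))))

def l0 (b : Bx) : Nat := cond (g0 b) 0 (pickb 1 (t151 b) b)

def P0 (x1 x2 : ℝ) : Prop := 0 < v71 x1 x2 ∧ 0 < v23 x1 x2 ∧ 0 < v59 x1 x2 ∧ 0 < v75 x1 x2 ∧ 0 < v76 x1 x2 ∧ 0 < v46 x1 x2 ∧ 0 < v125 x1 x2 ∧ 0 < v36 x1 x2 ∧ (0 < v163 x1 x2 ∨ 0 < v151 x1 x2)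

theorem l0_sound (h : In b E x1 x2) (e : l0 b = 0) : P0 x1 x2 := by
  have e1 : g0 b = true := by
    rcases e2 : g0 b with _ | _
    · unfold l0 at e; rw [e2, cond_false] at e; exact absurd e (pickb_ne _ _ _)
    · rfl
  exact ⟨pos_sound hS (h71 h) (Bool.and_eq_true_iff.mp e1).1, ⟨pos_sound hS (h23 h) (Bool.and_eq_true_iff.mp (Bool.and_eq_true_iff.mp e1).2).1, ⟨pos_sound hS (h59 h) (Bool.and_eq_true_iff.mp (Bool.and_eq_true_iff.mp (Bool.and_eq_true_iff.mp e1).2).2).1, ⟨pos_sound hS (h75 h) (Bool.and_eq_true_iff.mp (Bool.and_eq_true_iff.mp (Bool.and_eq_true_iff.mp (Bool.and_eq_true_iff.mp e1).2).2).2).1, ⟨pos_sound hS (h76 h) (Bool.and_eq_true_iff.mp (Bool.and_eq_true_iff.mp (Bool.and_eq_true_iff.mp (Bool.and_eq_true_iff.mp (Bool.and_eq_true_iff.mp e1).2).2).2).2).1, ⟨pos_sound hS (h46 h) (Bool.and_eq_true_iff.mp (Bool.and_eq_true_iff.mp (Bool.and_eq_true_iff.mp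 (Bool.and_eq_true_iff.mp (Bool.and_eq_true_iff.mp (Bool.and_eq_true_iff.mp e1).2).2).2).2).2).1, ⟨pos_sound hS (h125 h) (Bool.and_eq_true_iff.mp (Bool.and_eq_true_iff.mp (Bool.and_eq_true_iff.mp (Bool.and_eq_true_iff.mp (Bool.and_eq_true_iff.mp (Bool.and_eq_true_iff.mp (Bool.and_eq_true_iff.mp e1).2).2).2).2).2).2).1, ⟨pos_sound hS (h36 h) (Bool.and_eq_true_iff.mp (Bool.and_eq_true_iff.mp (Bool.and_eq_true_iff.mp (Bool.and_eq_true_iff.mp (Bool.and_eq_true_iff.mp (Bool.and_eq_true_iff.mp (Bool.and_eq_true_iff.mp (Bool.and_eq_true_iff.mp e1).2).2).2).2).2).2).2).1, ((Bool.or_eq_true_iff.mp (Bool.and_eq_true_iff.mp (Bool.and_eq_true_iff.mp (Bool.and_eq_true_iff.mp (Bool.and_eq_true_iff.mp (Bool.and_eq_true_iff.mp (Bool.and_eq_true_iff.mp (Bool.and_eq_true_iff.mp (Bool.and_eq_true_iff.mp e1).2).2).2).2).2).2).2).2).imp (fun a => pos_sound hS (h163 h) a) (fun a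 => pos_sound hS (h151 h) a))⟩⟩⟩⟩⟩⟩⟩⟩

def g1 (b : Bx) : Bool := or (pos (t154 b)) (or (pos (t97 b)) (or (pos (t156 b)) (or (pos (t98 b)) (or (pos (t157 b)) (or (pos (t160 b)) (or (pos (t162 b)) (or (pos (t164 b)) (or (pos (t165 b)) (or (pos (t166 b)) (pos (t168 b)))))))))))

def l1 (b : Bx) : Nat := cond (g1 b) 0 (l0 b)

def P1 (x1 x2 : ℝ) : Prop := (0 < v154 x1 x2 ∨ 0 < v97 x1 x2 ∨ 0 < v156 x1 x2 ∨ 0 < v98 x1 x2 ∨ 0 < v157 x1 x2 ∨ 0 < v160 x1 x2 ∨ 0 < v162 x1 x2 ∨ 0 < v164 x1 x2 ∨ 0 < v165 x1 x2 ∨ 0 < v166 x1 x2 ∨ 0 < v168 x1 x2) ∨ (P0 x1 x2)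

theorem l1_sound (h : In b E x1 x2) (e : l1 b = 0) : P1 x1 x2 := by
  unfold l1 at e
  rcases e1 : g1 b with _ | _
  · rw [e1, cond_false] at e
    have z0 : l0 b = 0 := e
    exact Or.inr (l0_sound h z0)
  · exact Or.inl (((Bool.or_eq_true_iff.mp e1).imp (fun a => pos_sound hS (h154 h) a) (fun a => ((Bool.or_eq_true_iff.mp a).imp (fun a => pos_sound hS (h97 h) a) (fun a => ((Bool.or_eq_true_iff.mp a).imp (fun a => pos_sound hS (h156 h) a) (fun a => ((Bool.or_eq_true_iff.mp a).imp (fun a => pos_sound hS (h98 h) a) (fun a => ((Bool.or_eq_true_iff.mp a).imp (fun a => pos_sound hS (h157 h) a) (fun a => ((Bool.or_eq_true_iff.mp a).imp (fun a => pos_sound hS (h160 h) a) (fun a => ((Bool.or_eq_true_iff.mp a).imp (fun a => pos_sound hS (h162 h) a) (fun a => ((Bool.or_eq_true_iff.mp a).imp (fun a => pos_sound hS (h164 h) a) (fun a => ((Bool.or_eq_true_iff.mp a).imp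 (fun a => pos_sound hS (h165 h) a) (fun a => ((Bool.or_eq_true_iff.mp a).imp (fun a => pos_sound hS (h166 h) a) (fun a => pos_sound hS (h168 h) a)))))))))))))))))))))

def f (b : Bx) : Nat := l1 b

/-- the statement -/
def Q (x1 x2 : ℝ) : Prop := P1 x1 x2

theorem f_sound (b : Bx) (hb : f b = 0) (x1 x2 : ℝ) (hm : Mem S b x1 x2) : Q x1 x2 := by
  obtain ⟨E, h⟩ := pt_of_mem hm
  have h : In b E x1 x2 := h
  unfold f at hb
  have e := hb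
  have z1 : l1 b = 0 := e
  exact (l1_sound h z1)

/-- the box -/
def b0 : Bx := ⟨697415773, 0, 232471926, 697415773, 0, 232471926⟩

theorem chk_all {n : ℕ} {b : Bx} (h : chk f n b = true) (x1 x2 : ℝ) (hm : Mem S b x1 x2) : Q x1 x2 :=
  chk_sound (fun b hb x1 x2 hm => f_sound b hb x1 x2 hm) n b h x1 x2 hm


end Pool.Agent.Strip051.LB.ChA00U_pm_112
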