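import Pool.Agent.Strip051.LB.ChA00U_pm_112.Defs
import Pool.Agent.Strip051.LB.Slope
import Pool.Agent.Strip051.LB.Star
import Pool.Agent.Strip051.LB.Cf

/-! # LINE tight chart ChA00U_pm_112: slopes -/

namespace Pool.Agent.Strip051.LB.ChA00U_pm_112

open Pool.Agent.Strip051.LB Pool.Agent.Strip051.LB.Fn Pool.Agent.Strip051.LB.Fc Pool.Agent.StripNear

set_option maxRecDepth 100000
set_option linter.all false

noncomputable def v26 (x1 x2 : ℝ) : ℝ := -(v24 x1 x2)

noncomputable def v49 (x1 x2 : ℝ) : ℝ := -(v48 x1 x2)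

noncomputable def v55 (x1 x2 : ℝ) : ℝ := (v18 x1 x2) ^ 2

noncomputable def v57 (x1 x2 : ℝ) : ℝ := v5 x1 x2 - v55 x1 x2

noncomputable def v58 (x1 x2 : ℝ) : ℝ := -(v56 x1 x2)

noncomputable def v62 (x1 x2 : ℝ) : ℝ := -(v61 x1 x2)

noncomputable def v64 (x1 x2 : ℝ) : ℝ := (v63 x1 x2) ^ 2

noncomputable def v68 (x1 x2 : ℝ) : ℝ := (v67 x1 x2) ^ 2

noncomputable def v70 (x1 x2 : ℝ) : ℝ := v64 x1 x2 + v68 x1 x2

noncomputable def v72 (x1 x2 : ℝ) : ℝ := v70 x1 x2 - v5 x1 x2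

noncomputable def v88 (x1 x2 : ℝ) : ℝ := v7 x1 x2 * v18 x1 x2

noncomputable def v89 (x1 x2 : ℝ) : ℝ := v25 x1 x2 * v0 x1 x2

noncomputable def v91 (x1 x2 : ℝ) : ℝ := -(v90 x1 x2)

noncomputable def v92 (x1 x2 : ℝ) : ℝ := v88 x1 x2 + v89 x1 x2

noncomputable def v94 (x1 x2 : ℝ) : ℝ := v92 x1 x2 * v85 x1 x2

noncomputable def v96 (x1 x2 : ℝ) : ℝ := v94 x1 x2 - v9 x1 x2

noncomputable def v113 (x1 x2 : ℝ) : ℝ := -(v112 x1 x2)

noncomputable def v130 (x1 x2 : ℝ) : ℝ := -(v129 x1 x2)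

noncomputable def v131 (x1 x2 : ℝ) : ℝ := v118 x1 x2 * v127 x1 x2

noncomputable def v135 (x1 x2 : ℝ) : ℝ := v132 x1 x2 - v133 x1 x2

noncomputable def v136 (x1 x2 : ℝ) : ℝ := -(v131 x1 x2)

structure Cx (x1 x2 : ℝ) : Prop where
  hc : v7 x1 x2 ^ 2 + x1 ^ 2 = 1
  p23 : 0 < v23 x1 x2
  p59 : 0 < v59 x1 x2
  p75 : 0 < v75 x1 x2
  p76 : 0 < v76 x1 x2
  p46 : 0 < v46 x1 x2
  p125 : 0 < v125 x1 x2
  p36 : 0 < v36 x1 x2

variable {x1 x2 : ℝ}

theorem s3q (x1 x2 : ℝ) : v2 x1 x2 ^ 2 = 3 := by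
  rw [v2]; exact s3sq

theorem s3ne (x1 x2 : ℝ) : v2 x1 x2 ≠ 0 := by
  rw [v2]; positivity

theorem s1 (c : Cx x1 x2) : v1 x1 x2 = v18 x1 x2 + v21 x1 x2 * v5 x1 x2 := by
  simp only [v0, v1, v5, v15, v18, v21]
  (try push_cast)
  first | ring | grind

theorem s22 (c : Cx x1 x2) : v22 x1 x2 = v55 x1 x2 + v21 x1 x2 * v56 x1 x2 := by
  have a0 : (v1 x1 x2 + v18 x1 x2) * v1 x1 x2 = (v1 x1 x2 + v18 x1 x2) * (v18 x1 x2 + v21 x1 x2 * v5 x1 x2) := congrArg (fun z => (v1 x1 x2 + v18 x1 x2) * z) (s1 c)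
  try simp only [v0, v1, v5, v15, v18, v21, v22, v55, v56] at a0
  simp only [v0, v1, v5, v15, v18, v21, v22, v55, v56]
  (try push_cast at a0 ⊢)
  first | linear_combination a0 | ring | grind

theorem s23 (c : Cx x1 x2) : v23 x1 x2 = v57 x1 x2 + v21 x1 x2 * v58 x1 x2 := by
  have a1 := s22 c
  try simp only [v0, v1, v5, v15, v18, v21, v23, v56, v57, v58] at a1
  simp only [v0, v1, v5, v15, v18, v21, v23, v56, v57, v58]
  (try push_cast at a1 ⊢)
  first | linear_combination -a1 | ring | grind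

theorem q24 (c : Cx x1 x2) : v57 x1 x2 = v25 x1 x2 ^ 2 := by
  have hc := c.hc
  have h3 := s3q x1 x2
  simp only [v0, v3, v5, v11, v13, v15, v17, v18, v25, v55, v57] at hc ⊢
  push_cast at hc ⊢
  grind

theorem s24 (c : Cx x1 x2) : v24 x1 x2 = v25 x1 x2 + v21 x1 x2 * v62 x1 x2 := by
  have a0 := s23 c
  have e : 0 < Real.sqrt (v23 x1 x2) + v25 x1 x2 := by
    have e := c.p59
    simp only [v5, v11, v23, v24, v25, v59] at e ⊢
    push_cast at e ⊢
    linarith
  have b := sl_sqrt a0 (q24 c) (le_of_lt c.p23) e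
  clear a0
  try simp only [v0, v1, v5, v11, v15, v18, v21, v23, v24, v25, v56, v57, v58, v59, v60, v61, v62] at b
  simp only [v0, v1, v5, v11, v15, v18, v21, v23, v24, v25, v56, v57, v58, v59, v60, v61, v62]
  (try push_cast at b ⊢)
  first | linear_combination b | ring | grind

theorem s27 (c : Cx x1 x2) : v27 x1 x2 = v63 x1 x2 + v21 x1 x2 * v61 x1 x2 := by
  have a1 := s24 c
  try simp only [v0, v1, v11, v15, v18, v21, v25, v27, v62, v63] at a1
  simp only [v0, v1, v11, v15, v18, v21, v25, v27, v62, v63]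
  (try push_cast at a1 ⊢)
  first | linear_combination -a1 | ring | grind

theorem s28 (c : Cx x1 x2) : v28 x1 x2 = v67 x1 x2 + v21 x1 x2 * v5 x1 x2 := by
  have a1 := s1 c
  try simp only [v0, v1, v5, v15, v18, v21, v28, v67] at a1
  simp only [v0, v1, v5, v15, v18, v21, v28, v67]
  (try push_cast at a1 ⊢)
  first | linear_combination a1 | ring | grind

theorem s39 (c : Cx x1 x2) : v39 x1 x2 = v111 x1 x2 + v21 x1 x2 * v113 x1 x2 := by
  have a0 := s24 c
  try simp only [v0, v1, v11, v15, v18, v21, v25, v39, v62, v111, v112, v113] at a0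
  simp only [v0, v1, v11, v15, v18, v21, v25, v39, v62, v111, v112, v113]
  (try push_cast at a0 ⊢)
  first | linear_combination (2 : ℝ) * a0 | ring | grind

theorem s40 (c : Cx x1 x2) : v40 x1 x2 = v114 x1 x2 + v21 x1 x2 * v113 x1 x2 := by
  have a1 := s39 c
  try simp only [v0, v1, v5, v11, v15, v18, v21, v25, v39, v40, v111, v112, v113, v114] at a1
  simp only [v0, v1, v5, v11, v15, v18, v21, v25, v39, v40, v111, v112, v113, v114]
  (try push_cast at a1 ⊢)
  first | linear_combination a1 | ring | grind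

theorem s41 (c : Cx x1 x2) : v41 x1 x2 = v115 x1 x2 + v21 x1 x2 * v2 x1 x2 := by
  have a1 : (v2 x1 x2) * v1 x1 x2 = (v2 x1 x2) * (v18 x1 x2 + v21 x1 x2 * v5 x1 x2) := congrArg (fun z => (v2 x1 x2) * z) (s1 c)
  try simp only [v0, v1, v2, v5, v15, v18, v21, v41, v115] at a1
  simp only [v0, v1, v2, v5, v15, v18, v21, v41, v115]
  (try push_cast at a1 ⊢)
  first | linear_combination a1 | ring | grind

theorem s42 (c : Cx x1 x2) : v42 x1 x2 = v116 x1 x2 + v21 x1 x2 * v117 x1 x2 := by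
  have a0 := s41 c
  have a1 := s24 c
  try simp only [v0, v1, v2, v11, v15, v18, v21, v25, v42, v62, v116, v117] at a0
  try simp only [v0, v1, v2, v11, v15, v18, v21, v25, v42, v62, v116, v117] at a1
  simp only [v0, v1, v2, v11, v15, v18, v21, v25, v42, v62, v116, v117]
  (try push_cast at a0 a1 ⊢)
  first | linear_combination a0 - a1 | ring | grind

theorem s43 (c : Cx x1 x2) : v43 x1 x2 = v118 x1 x2 + v21 x1 x2 * v122 x1 x2 := by
  have a0 : (v42 x1 x2) * v40 x1 x2 = (v42 x1 x2) * (v114 x1 x2 + v21 x1 x2 * v113 x1 x2) := congrArg (fun z => (v42 x1 x2) * z) (s40 c)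
  have a1 : (v114 x1 x2) * v42 x1 x2 = (v114 x1 x2) * (v116 x1 x2 + v21 x1 x2 * v117 x1 x2) := congrArg (fun z => (v114 x1 x2) * z) (s42 c)
  try simp only [v0, v1, v2, v5, v11, v15, v18, v21, v25, v39, v40, v42, v43, v111, v112, v113, v114, v116, v117, v118, v119, v121, v122] at a0
  try simp only [v0, v1, v2, v5, v11, v15, v18, v21, v25, v39, v40, v42, v43, v111, v112, v113, v114, v116, v117, v118, v119, v121, v122] at a1
  simp only [v0, v1, v2, v5, v11, v15, v18, v21, v25, v39, v40, v42, v43, v111, v112, v113, v114, v116, v117, v118, v119, v121, v122]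
  (try push_cast at a0 a1 ⊢)
  first | linear_combination a0 + a1 | ring | grind

theorem s44 (c : Cx x1 x2) : v44 x1 x2 = v123 x1 x2 + v21 x1 x2 * v2 x1 x2 := by
  have a1 := s41 c
  try simp only [v0, v1, v2, v5, v15, v18, v21, v44, v123] at a1
  simp only [v0, v1, v2, v5, v15, v18, v21, v44, v123]
  (try push_cast at a1 ⊢)
  first | linear_combination a1 | ring | grind

theorem s45 (c : Cx x1 x2) : v45 x1 x2 = v124 x1 x2 + v21 x1 x2 * v117 x1 x2 := by
  have a0 := s44 c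
  have a1 := s24 c
  try simp only [v0, v1, v2, v5, v11, v15, v18, v21, v25, v44, v45, v62, v117, v123, v124] at a0
  try simp only [v0, v1, v2, v5, v11, v15, v18, v21, v25, v44, v45, v62, v117, v123, v124] at a1
  simp only [v0, v1, v2, v5, v11, v15, v18, v21, v25, v44, v45, v62, v117, v123, v124]
  (try push_cast at a0 a1 ⊢)
  first | linear_combination a0 - a1 | ring | grind

theorem s46 (c : Cx x1 x2) : v46 x1 x2 = v125 x1 x2 + v21 x1 x2 * v126 x1 x2 := by
  have a0 := s45 c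
  try simp only [v0, v1, v2, v5, v11, v15, v18, v21, v25, v44, v45, v46, v117, v123, v124, v125, v126] at a0
  simp only [v0, v1, v2, v5, v11, v15, v18, v21, v25, v44, v45, v46, v117, v123, v124, v125, v126]
  (try push_cast at a0 ⊢)
  first | linear_combination (2 : ℝ) * a0 | ring | grind

theorem s47 (c : Cx x1 x2) : v47 x1 x2 = v127 x1 x2 + v21 x1 x2 * v130 x1 x2 := by
  have a0 := s46 c
  have b := sl_inv a0 (c.p46).ne' (c.p125).ne'
  clear a0
  try simp only [v0, v1, v2, v5, v11, v15, v18, v21, v25, v44, v45, v46, v47, v117, v123, v124, v125, v126, v127, v128, v129, v130] at b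
  simp only [v0, v1, v2, v5, v11, v15, v18, v21, v25, v44, v45, v46, v47, v117, v123, v124, v125, v126, v127, v128, v129, v130]
  (try push_cast at b ⊢)
  first | linear_combination b | ring | grind

theorem s48 (c : Cx x1 x2) : v48 x1 x2 = v131 x1 x2 + v21 x1 x2 * v135 x1 x2 := by
  have a0 : (v47 x1 x2) * v43 x1 x2 = (v47 x1 x2) * (v118 x1 x2 + v21 x1 x2 * v122 x1 x2) := congrArg (fun z => (v47 x1 x2) * z) (s43 c)
  have a1 : (v118 x1 x2) * v47 x1 x2 = (v118 x1 x2) * (v127 x1 x2 + v21 x1 x2 * v130 x1 x2) := congrArg (fun z => (v118 x1 x2) * z) (s47 c)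
  try simp only [v0, v1, v15, v18, v21, v48, v122, v130, v131, v132, v133, v135] at a0
  try simp only [v0, v1, v15, v18, v21, v48, v122, v130, v131, v132, v133, v135] at a1
  simp only [v0, v1, v15, v18, v21, v48, v122, v130, v131, v132, v133, v135]
  (try push_cast at a0 a1 ⊢)
  first | linear_combination a0 + a1 | ring | grind

theorem s49 (c : Cx x1 x2) : v49 x1 x2 = v136 x1 x2 + v21 x1 x2 * v137 x1 x2 := by
  have a0 := s48 c
  try simp only [v0, v1, v15, v18, v21, v49, v135, v136, v137] at a0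
  simp only [v0, v1, v15, v18, v21, v49, v135, v136, v137]
  (try push_cast at a0 ⊢)
  first | linear_combination -a0 | ring | grind

theorem s50 (c : Cx x1 x2) : v50 x1 x2 = v64 x1 x2 + v21 x1 x2 * v66 x1 x2 := by
  have a0 : (v27 x1 x2 + v63 x1 x2) * v27 x1 x2 = (v27 x1 x2 + v63 x1 x2) * (v63 x1 x2 + v21 x1 x2 * v61 x1 x2) := congrArg (fun z => (v27 x1 x2 + v63 x1 x2) * z) (s27 c)
  try simp only [v0, v1, v11, v15, v18, v21, v25, v27, v50, v63, v64, v65, v66] at a0
  simp only [v0, v1, v11, v15, v18, v21, v25, v27, v50, v63, v64, v65, v66]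
  (try push_cast at a0 ⊢)
  first | linear_combination a0 | ring | grind

theorem s51 (c : Cx x1 x2) : v51 x1 x2 = v68 x1 x2 + v21 x1 x2 * v69 x1 x2 := by
  have a0 : (v28 x1 x2 + v67 x1 x2) * v28 x1 x2 = (v28 x1 x2 + v67 x1 x2) * (v67 x1 x2 + v21 x1 x2 * v5 x1 x2) := congrArg (fun z => (v28 x1 x2 + v67 x1 x2) * z) (s28 c)
  try simp only [v0, v1, v5, v15, v18, v21, v28, v51, v67, v68, v69] at a0
  simp only [v0, v1, v5, v15, v18, v21, v28, v51, v67, v68, v69]
  (try push_cast at a0 ⊢)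
  first | linear_combination a0 | ring | grind

theorem s52 (c : Cx x1 x2) : v52 x1 x2 = v70 x1 x2 + v21 x1 x2 * v71 x1 x2 := by
  have a0 := s50 c
  have a1 := s51 c
  try simp only [v0, v1, v15, v18, v21, v28, v52, v67, v69, v70, v71] at a0
  try simp only [v0, v1, v15, v18, v21, v28, v52, v67, v69, v70, v71] at a1
  simp only [v0, v1, v15, v18, v21, v28, v52, v67, v69, v70, v71]
  (try push_cast at a0 a1 ⊢)
  first | linear_combination a0 + a1 | ring | grind

theorem s53 (c : Cx x1 x2) : v53 x1 x2 = v72 x1 x2 + v21 x1 x2 * v71 x1 x2 := by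
  have a0 := s52 c
  try simp only [v0, v1, v5, v15, v18, v21, v28, v52, v53, v67, v69, v70, v71, v72] at a0
  simp only [v0, v1, v5, v15, v18, v21, v28, v52, v53, v67, v69, v70, v71, v72]
  (try push_cast at a0 ⊢)
  first | linear_combination a0 | ring | grind

theorem s81 (c : Cx x1 x2) : v81 x1 x2 = v88 x1 x2 + v21 x1 x2 * v7 x1 x2 := by
  have a1 : (v7 x1 x2) * v1 x1 x2 = (v7 x1 x2) * (v18 x1 x2 + v21 x1 x2 * v5 x1 x2) := congrArg (fun z => (v7 x1 x2) * z) (s1 c)
  try simp only [v0, v1, v5, v15, v18, v21, v81, v88] at a1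
  simp only [v0, v1, v5, v15, v18, v21, v81, v88]
  (try push_cast at a1 ⊢)
  first | linear_combination a1 | ring | grind

theorem s82 (c : Cx x1 x2) : v82 x1 x2 = v89 x1 x2 + v21 x1 x2 * v91 x1 x2 := by
  have a0 : (v0 x1 x2) * v24 x1 x2 = (v0 x1 x2) * (v25 x1 x2 + v21 x1 x2 * v62 x1 x2) := congrArg (fun z => (v0 x1 x2) * z) (s24 c)
  try simp only [v0, v1, v11, v15, v18, v21, v25, v62, v82, v89, v90, v91] at a0
  simp only [v0, v1, v11, v15, v18, v21, v25, v62, v82, v89, v90, v91]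
  (try push_cast at a0 ⊢)
  first | linear_combination a0 | ring | grind

theorem s84 (c : Cx x1 x2) : v84 x1 x2 = v92 x1 x2 + v21 x1 x2 * v93 x1 x2 := by
  have a0 := s81 c
  have a1 := s82 c
  try simp only [v0, v1, v15, v18, v21, v84, v91, v92, v93] at a0
  try simp only [v0, v1, v15, v18, v21, v84, v91, v92, v93] at a1
  simp only [v0, v1, v15, v18, v21, v84, v91, v92, v93]
  (try push_cast at a0 a1 ⊢)
  first | linear_combination a0 + a1 | ring | grind

theorem s86 (c : Cx x1 x2) : v86 x1 x2 = v94 x1 x2 + v21 x1 x2 * v95 x1 x2 := by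
  have a0 : (v85 x1 x2) * v84 x1 x2 = (v85 x1 x2) * (v92 x1 x2 + v21 x1 x2 * v93 x1 x2) := congrArg (fun z => (v85 x1 x2) * z) (s84 c)
  try simp only [v0, v1, v15, v18, v21, v84, v86, v92, v93, v94, v95] at a0
  simp only [v0, v1, v15, v18, v21, v84, v86, v92, v93, v94, v95]
  (try push_cast at a0 ⊢)
  first | linear_combination a0 | ring | grind

theorem s87 (c : Cx x1 x2) : v87 x1 x2 = v96 x1 x2 + v21 x1 x2 * v95 x1 x2 := by
  have a0 := s86 c
  try simp only [v0, v1, v9, v15, v18, v21, v87, v96] at a0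
  simp only [v0, v1, v9, v15, v18, v21, v87, v96]
  (try push_cast at a0 ⊢)
  first | linear_combination a0 | ring | grind

theorem s98 (c : Cx x1 x2) : v98 x1 x2 = v138 x1 x2 + v21 x1 x2 * v5 x1 x2 := by
  have a0 := s1 c
  try simp only [v0, v1, v2, v3, v5, v15, v18, v21, v98, v138] at a0
  simp only [v0, v1, v2, v3, v5, v15, v18, v21, v98, v138]
  (try push_cast at a0 ⊢)
  first | linear_combination a0 | ring | grind

theorem s99 (c : Cx x1 x2) : v99 x1 x2 = v141 x1 x2 + v21 x1 x2 * v5 x1 x2 := by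
  have a0 := s28 c
  try simp only [v0, v1, v2, v3, v5, v15, v18, v21, v28, v67, v99, v141] at a0
  simp only [v0, v1, v2, v3, v5, v15, v18, v21, v28, v67, v99, v141]
  (try push_cast at a0 ⊢)
  first | linear_combination a0 | ring | grind

theorem bD (c : Cx x1 x2) : v72 x1 x2 = 0 := by
  have hc := c.hc
  have h3 := s3q x1 x2
  simp only [v0, v3, v5, v11, v13, v15, v17, v18, v25, v63, v64, v67, v68, v70, v72] at hc ⊢
  push_cast at hc ⊢
  grind

theorem sD (c : Cx x1 x2) : v53 x1 x2 = v21 x1 x2 * v71 x1 x2 := by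
  have h := s53 c
  rw [bD c, zero_add] at h
  exact h

theorem s78 (c : Cx x1 x2) : v78 x1 x2 = v63 x1 x2 + v21 x1 x2 * v80 x1 x2 := by
  have hA := s27 c
  have hd := sD c
  have hK : v73 x1 x2 * v53 x1 x2 = v73 x1 x2 * (v21 x1 x2 * v71 x1 x2) := congrArg (fun z => v73 x1 x2 * z) hd
  try simp only [v0, v1, v5, v11, v15, v18, v21, v25, v27, v28, v52, v53, v63, v67, v69, v71, v77, v78, v79, v80] at hA
  try simp only [v0, v1, v5, v11, v15, v18, v21, v25, v27, v28, v52, v53, v63, v67, v69, v71, v77, v78, v79, v80] at hK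
  simp only [v0, v1, v5, v11, v15, v18, v21, v25, v27, v28, v52, v53, v63, v67, v69, v71, v77, v78, v79, v80]
  (try push_cast at hA hK ⊢)
  first | linear_combination (hA + hK) | grind

theorem bE (c : Cx x1 x2) : v96 x1 x2 = 0 := by
  have hc := c.hc
  have h3 := s3q x1 x2
  have g0 : v2 x1 x2 ≠ 0 := s3ne x1 x2
  simp only [v0, v3, v9, v11, v13, v15, v17, v18, v25, v85, v88, v89, v92, v94, v96] at hc ⊢
  push_cast at hc ⊢
  grind

theorem hE (c : Cx x1 x2) : v87 x1 x2 = v21 x1 x2 * v95 x1 x2 := by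
  have h := s87 c
  rw [bE c, zero_add] at h
  exact h

theorem bC12 (c : Cx x1 x2) : v97 x1 x2 * v136 x1 x2 - v138 x1 x2 * v38 x1 x2 = 0 := by
  have hc := c.hc
  have h3 := s3q x1 x2
  have g0 := (c.p36).ne'
  have g1 := (c.p125).ne'
  simp only [v0, v3, v5, v11, v13, v15, v17, v18, v25, v29, v30, v31, v32, v33, v34, v35, v36, v37, v38, v97, v111, v114, v115, v116, v118, v123, v124, v125, v127, v131, v136, v138] at hc g0 g1 ⊢
  push_cast at hc g0 g1 ⊢
  grind

theorem hC12 (c : Cx x1 x2) : v97 x1 x2 * v49 x1 x2 - v98 x1 x2 * v38 x1 x2 = v21 x1 x2 * v140 x1 x2 := by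
  have a2 : v97 x1 x2 * v49 x1 x2 = v97 x1 x2 * (v136 x1 x2 + v21 x1 x2 * v137 x1 x2) := congrArg (fun z => v97 x1 x2 * z) (s49 c)
  have a3 : v38 x1 x2 * v98 x1 x2 = v38 x1 x2 * (v138 x1 x2 + v21 x1 x2 * v5 x1 x2) := congrArg (fun z => v38 x1 x2 * z) (s98 c)
  have b := bC12 c
  try simp only [v0, v1, v2, v3, v5, v15, v18, v21, v49, v97, v98, v136, v137, v138, v139, v140] at a2
  try simp only [v0, v1, v2, v3, v5, v15, v18, v21, v49, v97, v98, v136, v137, v138, v139, v140] at a3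
  try simp only [v0, v1, v2, v3, v5, v15, v18, v21, v49, v97, v98, v136, v137, v138, v139, v140] at b
  simp only [v0, v1, v2, v3, v5, v15, v18, v21, v49, v97, v98, v136, v137, v138, v139, v140]
  (try push_cast at a2 a3 b ⊢)
  first | linear_combination a2 - a3 + b | grind

theorem bC32 (c : Cx x1 x2) : v141 x1 x2 * v136 x1 x2 - v138 x1 x2 * v63 x1 x2 = 0 := by
  have hc := c.hc
  have h3 := s3q x1 x2
  have g0 := (c.p125).ne'
  simp only [v0, v3, v5, v11, v13, v15, v17, v18, v25, v63, v67, v111, v114, v115, v116, v118, v123, v124, v125, v127, v131, v136, v138, v141] at hc g0 ⊢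
  push_cast at hc g0 ⊢
  grind

theorem hC32 (c : Cx x1 x2) : v99 x1 x2 * v49 x1 x2 - v98 x1 x2 * v78 x1 x2 = v21 x1 x2 * v146 x1 x2 := by
  have a1 : v49 x1 x2 * v99 x1 x2 = v49 x1 x2 * (v141 x1 x2 + v21 x1 x2 * v5 x1 x2) := congrArg (fun z => v49 x1 x2 * z) (s99 c)
  have a2 : v141 x1 x2 * v49 x1 x2 = v141 x1 x2 * (v136 x1 x2 + v21 x1 x2 * v137 x1 x2) := congrArg (fun z => v141 x1 x2 * z) (s49 c)
  have a3 : v78 x1 x2 * v98 x1 x2 = v78 x1 x2 * (v138 x1 x2 + v21 x1 x2 * v5 x1 x2) := congrArg (fun z => v78 x1 x2 * z) (s98 c)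
  have a4 : v138 x1 x2 * v78 x1 x2 = v138 x1 x2 * (v63 x1 x2 + v21 x1 x2 * v80 x1 x2) := congrArg (fun z => v138 x1 x2 * z) (s78 c)
  have b := bC32 c
  try simp only [v0, v1, v2, v3, v5, v11, v15, v18, v21, v25, v27, v28, v49, v63, v67, v78, v80, v98, v99, v136, v137, v138, v141, v142, v143, v144, v145, v146] at a1
  try simp only [v0, v1, v2, v3, v5, v11, v15, v18, v21, v25, v27, v28, v49, v63, v67, v78, v80, v98, v99, v136, v137, v138, v141, v142, v143, v144, v145, v146] at a2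
  try simp only [v0, v1, v2, v3, v5, v11, v15, v18, v21, v25, v27, v28, v49, v63, v67, v78, v80, v98, v99, v136, v137, v138, v141, v142, v143, v144, v145, v146] at a3
  try simp only [v0, v1, v2, v3, v5, v11, v15, v18, v21, v25, v27, v28, v49, v63, v67, v78, v80, v98, v99, v136, v137, v138, v141, v142, v143, v144, v145, v146] at a4
  try simp only [v0, v1, v2, v3, v5, v11, v15, v18, v21, v25, v27, v28, v49, v63, v67, v78, v80, v98, v99, v136, v137, v138, v141, v142, v143, v144, v145, v146] at b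
  simp only [v0, v1, v2, v3, v5, v11, v15, v18, v21, v25, v27, v28, v49, v63, v67, v78, v80, v98, v99, v136, v137, v138, v141, v142, v143, v144, v145, v146]
  (try push_cast at a1 a2 a3 a4 b ⊢)
  first | linear_combination a1 + a2 - a3 - a4 + b | grind

theorem bC13 (c : Cx x1 x2) : v97 x1 x2 * v63 x1 x2 - v141 x1 x2 * v38 x1 x2 = 0 := by
  have hc := c.hc
  have h3 := s3q x1 x2
  have g0 := (c.p36).ne'
  simp only [v0, v3, v5, v11, v13, v15, v17, v18, v25, v29, v30, v31, v32, v33, v34, v35, v36, v37, v38, v63, v67, v97, v141] at hc g0 ⊢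
  push_cast at hc g0 ⊢
  grind

theorem hC13 (c : Cx x1 x2) : v97 x1 x2 * v78 x1 x2 - v99 x1 x2 * v38 x1 x2 = v21 x1 x2 * v148 x1 x2 := by
  have a2 : v97 x1 x2 * v78 x1 x2 = v97 x1 x2 * (v63 x1 x2 + v21 x1 x2 * v80 x1 x2) := congrArg (fun z => v97 x1 x2 * z) (s78 c)
  have a3 : v38 x1 x2 * v99 x1 x2 = v38 x1 x2 * (v141 x1 x2 + v21 x1 x2 * v5 x1 x2) := congrArg (fun z => v38 x1 x2 * z) (s99 c)
  have b := bC13 c
  try simp only [v0, v1, v2, v3, v5, v11, v15, v18, v21, v25, v27, v28, v63, v67, v78, v80, v97, v99, v141, v147, v148] at a2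
  try simp only [v0, v1, v2, v3, v5, v11, v15, v18, v21, v25, v27, v28, v63, v67, v78, v80, v97, v99, v141, v147, v148] at a3
  try simp only [v0, v1, v2, v3, v5, v11, v15, v18, v21, v25, v27, v28, v63, v67, v78, v80, v97, v99, v141, v147, v148] at b
  simp only [v0, v1, v2, v3, v5, v11, v15, v18, v21, v25, v27, v28, v63, v67, v78, v80, v97, v99, v141, v147, v148]
  (try push_cast at a2 a3 b ⊢)
  first | linear_combination a2 - a3 + b | grind

theorem core (c : Cx x1 x2) (hW : 0 ≤ v21 x1 x2) (hWQ : 0 ≤ v21 x1 x2 * v151 x1 x2) :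
    0 ≤ starw_v (v87 x1 x2) (v99 x1 x2) ((-v98 x1 x2)) ((-v97 x1 x2)) (v78 x1 x2) ((-v49 x1 x2)) ((-v38 x1 x2)) := by
  have e1 : (-v98 x1 x2) * v78 x1 x2 - v99 x1 x2 * (-v49 x1 x2) = v21 x1 x2 * v146 x1 x2 := by linear_combination hC32 c
  have e2 : (-v97 x1 x2) * (-v49 x1 x2) - (-v98 x1 x2) * (-v38 x1 x2) = v21 x1 x2 * v140 x1 x2 := by linear_combination hC12 c
  have e3 : v99 x1 x2 * (-v38 x1 x2) - (-v97 x1 x2) * v78 x1 x2 = v21 x1 x2 * v148 x1 x2 := by linear_combination hC13 c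
  have f1 : (-v98 x1 x2) = v149 x1 x2 := by
    simp only [v0, v1, v2, v3, v28, v97, v98, v99, v149]
    try (push_cast; ring)
  have f2 : (-v97 x1 x2) = v150 x1 x2 := by
    simp only [v0, v1, v2, v3, v28, v97, v98, v99, v150]
    try (push_cast; ring)
  rw [starw_eq hW (hE c) e1 e2 e3]
  rw [f1]
  rw [f2]
  exact hWQ

end Pool.Agent.Strip051.LB.ChA00U_pm_112
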